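import Pool.Agent.helper76.UF.SpecB

set_option autoImplicit false

/-!
# Fermat numbers and unique factorisation, row RAR
-/

namespace Pool.Agent.UF

open Finset Polynomial NumberField nonZeroDivisors

/-- A power of `E`, `1 < E < F_n`, is a power of `F_n` only if it is `1`. -/
theorem RAR_pow (h : NPP_stmt) (n E : ℕ) (h1 : 1 < E) (h2 : E < fer n) (w k : ℕ)
    (he : E ^ w = fer n ^ k) : w = 0 := by
  by_contra hw
  rcases Nat.eq_zero_or_pos k with hk | hk
  · subst hk
    rw [pow_zero] at he
    exact absurd he (Nat.one_lt_pow hw h1).ne'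
  · by_cases hkw : w ≤ k
    · have h3 : E ^ w < fer n ^ w := Nat.pow_lt_pow_left h2 hw
      have h4 : fer n ^ w ≤ fer n ^ k := Nat.pow_le_pow_right (by omega) hkw
      omega
    · exact h n k w E hk (by omega) he

/-- The same with a power of `F_n` as a factor. -/
theorem RAR_mul (h : NPP_stmt) (n E : ℕ) (h1 : 1 < E) (h2 : E < fer n) (w u k : ℕ)
    (he : E ^ w * fer n ^ u = fer n ^ k) : w = 0 := by
  have hF : 0 < fer n := by omega
  by_cases huk : u ≤ k
  · have h3 : fer n ^ k = fer n ^ (k - u) * fer n ^ u := by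
      rw [← pow_add]
      congr 1
      omega
    rw [h3] at he
    exact RAR_pow h n E h1 h2 w (k - u) (Nat.eq_of_mul_eq_mul_right (pow_pos hF u) he)
  · exfalso
    have h3 : fer n ^ k < fer n ^ u := Nat.pow_lt_pow_right (by omega) (by omega)
    have h4 : 1 ≤ E ^ w := Nat.one_le_pow _ _ (by omega)
    have h5 : 1 * fer n ^ u ≤ E ^ w * fer n ^ u := Nat.mul_le_mul_right _ h4
    omega

theorem RAR (h : NPP_stmt) : RAR_stmt := by
  intro n D D' hDD h1 h2
  have hF : 0 < fer n := by omega
  have hD'0 : D' ≠ 0 := by
    rintro rfl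
    rw [mul_zero] at hDD
    omega
  have h1' : 1 < D' := by
    by_contra hc
    have : D' = 1 := by omega
    subst this
    rw [mul_one] at hDD
    omega
  have h2' : D' < fer n := by
    rw [← hDD]
    nlinarith
  refine ⟨?_, ?_, ?_⟩
  · intro u v k he
    by_contra huv
    rcases Nat.lt_or_gt_of_ne huv with hlt | hlt
    · have h3 : D ^ v * D' ^ u = D ^ (v - u) * fer n ^ u := by
        rw [← hDD, mul_pow, ← mul_assoc, ← pow_add]
        congr 2
        omega
      rw [h3] at he
      have := RAR_mul h n D h1 h2 _ _ _ he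
      omega
    · have h3 : D ^ v * D' ^ u = D' ^ (u - v) * fer n ^ v := by
        have h4 : D' ^ u = D' ^ (u - v) * D' ^ v := by
          rw [← pow_add]
          congr 1
          omega
        rw [h4, ← hDD, mul_pow]
        ring
      rw [h3] at he
      have := RAR_mul h n D' h1' h2' _ _ _ he
      omega
  · intro w k he
    exact RAR_pow h n D h1 h2 w k he
  · intro w k he
    exact RAR_pow h n D' h1' h2' w k he

end Pool.Agent.UF
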